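import Pool.Agent.N295.SR.Stm2
import Pool.Agent.N273.LT.St3

/-!
# Limits, nonvanishing and domination of bounded solutions (subtask SR/1 of helper295)
-/

set_option autoImplicit false

open MeasureTheory Set Real Filter Topology

namespace Pool.Agent.N9.SR

open Pool.Agent.N295.SR

/-! ### Calculus -/

theorem mono_of {f f' : ℝ → ℝ} {K : ℝ} (hf : ∀ x, HasDerivAt f (f' x) x)
    (h : ∀ x, K ≤ x → 0 ≤ f' x) {x y : ℝ} (hx : K ≤ x) (hxy : x ≤ y) : f x ≤ f y := by
  have h1 : MonotoneOn f (Ici K) := by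
    apply monotoneOn_of_deriv_nonneg (convex_Ici K)
    · exact (continuous_iff_continuousAt.2 fun x => (hf x).continuousAt).continuousOn
    · exact fun x _ => (hf x).differentiableAt.differentiableWithinAt
    · intro x hx
      rw [interior_Ici] at hx
      rw [(hf x).deriv]
      exact h x (le_of_lt hx)
  exact h1 hx (hx.trans hxy) hxy

theorem anti_of {f f' : ℝ → ℝ} {K : ℝ} (hf : ∀ x, HasDerivAt f (f' x) x)
    (h : ∀ x, K ≤ x → f' x ≤ 0) {x y : ℝ} (hx : K ≤ x) (hxy : x ≤ y) : f y ≤ f x := by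
  have h1 := mono_of (f := fun x => -f x) (f' := fun x => -f' x) (fun x => (hf x).neg)
    (fun x hx => neg_nonneg.2 (h x hx)) hx hxy
  simpa using h1

/-- a function whose derivative is at least `δ > 0` is not bounded -/
theorem no_grow {f f' : ℝ → ℝ} (hf : ∀ x, HasDerivAt f (f' x) x) {B x1 δ : ℝ}
    (hB : ∀ x, |f x| ≤ B) (hδ : 0 < δ) (h : ∀ x, x1 ≤ x → δ ≤ f' x) : False := by
  have hB0 : 0 ≤ B := (abs_nonneg _).trans (hB 0)
  have h1 : ∀ x, HasDerivAt (fun x => f x - δ * x) (f' x - δ) x := by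
    intro x
    have h2 : HasDerivAt (fun x => f x - δ * x) (f' x - δ * 1) x :=
      (hf x).sub ((hasDerivAt_id x).const_mul δ)
    rwa [mul_one] at h2
  have h3 := mono_of h1 (fun x hx => sub_nonneg.2 (h x hx)) (le_refl x1)
    (show x1 ≤ x1 + (2 * B + 1) / δ by
      have : 0 ≤ (2 * B + 1) / δ := by positivity
      linarith)
  have h4 : δ * (x1 + (2 * B + 1) / δ) = δ * x1 + (2 * B + 1) := by
    field_simp
  rw [h4] at h3
  have h5 := (abs_le.1 (hB x1)).1
  have h6 := (abs_le.1 (hB (x1 + (2 * B + 1) / δ))).2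
  linarith

theorem lim_of_anti {f : ℝ → ℝ} {K b : ℝ} (h : ∀ x y, K ≤ x → x ≤ y → f y ≤ f x)
    (hb : ∀ x, K ≤ x → b ≤ f x) : ∃ c, Tendsto f atTop (𝓝 c) := by
  have h1 : Antitone fun x => f (max x K) := by
    intro x y hxy
    exact h _ _ (le_max_right _ _) (max_le_max hxy le_rfl)
  have h2 : BddBelow (range fun x => f (max x K)) := by
    refine ⟨b, ?_⟩
    rintro _ ⟨x, rfl⟩
    exact hb _ (le_max_right _ _)
  refine ⟨_, (tendsto_atTop_ciInf h1 h2).congr' ?_⟩
  filter_upwards [eventually_ge_atTop K] with x hx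
  rw [max_eq_left hx]

/-- a continuous function without zeros has a constant sign -/
theorem const_sign {f : ℝ → ℝ} (hf : Continuous f) {K : ℝ} (h : ∀ x, K ≤ x → f x ≠ 0) :
    (∀ x, K ≤ x → 0 < f x) ∨ ∀ x, K ≤ x → f x < 0 := by
  rcases lt_or_gt_of_ne (h K le_rfl) with h1 | h1
  · right
    intro x hx
    by_contra hcon
    obtain ⟨y, hy, hy2⟩ := intermediate_value_Icc hx hf.continuousOn ⟨h1.le, not_lt.1 hcon⟩
    exact h y hy.1 hy2
  · left
    intro x hx
    by_contra hcon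
    obtain ⟨y, hy, hy2⟩ := intermediate_value_Icc' hx hf.continuousOn ⟨not_lt.1 hcon, h1.le⟩
    exact h y hy.1 hy2

/-! ### The potential -/

/-- the bound for the potential -/
noncomputable def EE (D x : ℝ) : ℝ := D * Real.exp (-2 * x)

theorem EE_nonneg {D : ℝ} (hD : 0 ≤ D) (x : ℝ) : 0 ≤ EE D x :=
  mul_nonneg hD (Real.exp_pos _).le

theorem EE_deriv (D x : ℝ) : HasDerivAt (EE D) (-2 * EE D x) x := by
  unfold EE
  have h1 : HasDerivAt (fun x : ℝ => -2 * x) (-2) x := by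
    simpa using (hasDerivAt_id x).const_mul (-2 : ℝ)
  have h2 := (h1.exp).const_mul D
  have h3 : D * (Real.exp (-2 * x) * -2) = -2 * (D * Real.exp (-2 * x)) := by ring
  rw [h3] at h2
  exact h2

theorem EE_small {D x : ℝ} (hD : 0 ≤ D) (hx : Real.sqrt D + 3 ≤ x) : EE D x ≤ 1 / 8 := by
  unfold EE
  obtain ⟨s, hs⟩ : ∃ s, s = Real.sqrt D := ⟨_, rfl⟩
  have hs0 : 0 ≤ s := by rw [hs]; exact Real.sqrt_nonneg _
  have hsD : D = s ^ 2 := by rw [hs, Real.sq_sqrt hD]
  rw [← hs] at hx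
  have h1 : s ≤ Real.exp (s - 1) := by
    have := Real.add_one_le_exp (s - 1)
    linarith
  have h2 : s ^ 2 ≤ Real.exp (s - 1) ^ 2 := pow_le_pow_left₀ hs0 h1 2
  have h3 : Real.exp (-2 * x) ≤ Real.exp (-2 * (s + 3)) := Real.exp_le_exp.2 (by linarith)
  have h4 : s ^ 2 * Real.exp (-2 * x) ≤ Real.exp (s - 1) ^ 2 * Real.exp (-2 * (s + 3)) :=
    mul_le_mul h2 h3 (Real.exp_pos _).le (by positivity)
  have h5 : Real.exp (s - 1) ^ 2 * Real.exp (-2 * (s + 3)) = Real.exp (-8) := by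
    rw [← Real.exp_nat_mul, ← Real.exp_add]
    congr 1
    push_cast
    ring
  rw [h5] at h4
  rw [hsD]
  refine h4.trans ?_
  have h6 : Real.exp (-8) ≤ Real.exp (-3) := Real.exp_le_exp.2 (by norm_num)
  refine h6.trans ?_
  have h7 : (8 : ℝ) ≤ Real.exp 3 := by
    have h8 : (2 : ℝ) ≤ Real.exp 1 := by
      have := Real.add_one_le_exp (1 : ℝ)
      linarith
    have h9 : Real.exp 3 = Real.exp 1 ^ 3 := by
      rw [← Real.exp_nat_mul]
      norm_num
    rw [h9]
    calc (8 : ℝ) = 2 ^ 3 := by norm_num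
      _ ≤ Real.exp 1 ^ 3 := pow_le_pow_left₀ (by norm_num) h8 3
  rw [Real.exp_neg, inv_eq_one_div]
  exact one_div_le_one_div_of_le (by norm_num) h7

theorem EE_lim (D : ℝ) : Tendsto (EE D) atTop (𝓝 0) := by
  unfold EE
  have h1 : Tendsto (fun x : ℝ => -2 * x) atTop atBot :=
    (tendsto_id.const_mul_atTop_of_neg (by norm_num : (-2 : ℝ) < 0))
  have h2 := (Real.tendsto_exp_atBot.comp h1).const_mul D
  simpa using h2

section sol

variable {D : ℝ} {q : ℝ → ℝ} {ν : ℝ} {U U' : ℝ → ℝ}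

theorem q_le (h : BSol D q ν U U') {x : ℝ} (hx : 0 ≤ x) : q x ≤ EE D x := by
  have h1 := h.qD x
  rw [abs_of_nonneg hx] at h1
  exact h1

theorem nu_nonneg (h : BSol D q ν U U') : 0 ≤ ν := by
  rcases h.hν with h1 | h1 <;> linarith

theorem q_le_D (h : BSol D q ν U U') (x : ℝ) : q x ≤ D := by
  refine (h.qD x).trans ?_
  have h1 : Real.exp (-2 * |x|) ≤ 1 := Real.exp_le_one_iff.2 (by
    have := abs_nonneg x
    linarith)
  have := mul_le_mul_of_nonneg_left h1 h.hD
  linarith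

theorem g_bd (h : BSol D q ν U U') (x : ℝ) : |ν - q x| ≤ ν + D := by
  have h1 := nu_nonneg h
  have h2 := q_le_D h x
  have h3 := h.q0 x
  have h4 := h.hD
  rw [abs_le]
  constructor <;> linarith

theorem K_pos (_ : BSol D q ν U U') : 0 ≤ Real.sqrt D + 3 := by
  have := Real.sqrt_nonneg D
  linarith

/-- uniqueness -/
theorem vanish (h : BSol D q ν U U') {x1 : ℝ} (h0 : ∀ y, x1 ≤ y → U y = 0) : ∀ x, U x = 0 := by
  have hQ : 0 ≤ ν + D := add_nonneg (nu_nonneg h) h.hD
  have hd : U' (x1 + 1) = 0 := by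
    have h1 : U =ᶠ[𝓝 (x1 + 1)] fun _ => 0 := by
      filter_upwards [eventually_gt_nhds (show x1 < x1 + 1 by linarith)] with y hy
      exact h0 y hy.le
    have h2 := (hasDerivAt_const (x1 + 1) (0 : ℝ)).congr_of_eventuallyEq h1
    exact (h.d1 (x1 + 1)).unique h2
  refine Pool.Agent.N273.LT.rigid (ℓ := 1 / (2 * (ν + D + 1))) (Q := ν + D) (z := x1 + 1)
    (c := x1 + 1) (by positivity) h.d1 h.d2 (g_bd h) ?_ ?_ (h0 _ (by linarith)) hd
  · have h3 : (1 / (2 * (ν + D + 1))) ^ 2 * (ν + D) = (ν + D) / (4 * (ν + D + 1) ^ 2) := by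
      field_simp
      ring
    rw [h3, div_le_div_iff₀ (by positivity) (by norm_num)]
    nlinarith
  · rw [sub_self, abs_zero]
    positivity

/-! ### The case `ν ≥ 1` -/

theorem sq_anti (h : BSol D q ν U U') (hν : 1 ≤ ν) {x : ℝ} (hx : Real.sqrt D + 3 ≤ x) :
    U x * U' x ≤ 0 := by
  by_contra hcon
  push Not at hcon
  obtain ⟨B, hB⟩ := h.bdd
  have hF : ∀ x, HasDerivAt (fun x => U x ^ 2) (2 * (U x * U' x)) x := by
    intro x
    have h1 := (h.d1 x).pow 2
    have h2 : (2 : ℕ) * U x ^ (2 - 1) * U' x = 2 * (U x * U' x) := by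
      push_cast
      ring
    rw [h2] at h1
    exact h1
  have hG : ∀ x, HasDerivAt (fun x => U x * U' x) (U' x * U' x + U x * ((ν - q x) * U x)) x :=
    fun x => (h.d1 x).mul (h.d2 x)
  refine no_grow hF (B := B ^ 2) (x1 := x) (δ := 2 * (U x * U' x)) ?_ (by linarith) ?_
  · intro y
    rw [abs_of_nonneg (sq_nonneg _)]
    exact sq_le_sq' (abs_le.1 (hB y)).1 (abs_le.1 (hB y)).2
  · intro y hy
    have h3 := mono_of hG (K := Real.sqrt D + 3) (fun z hz => by
      have h4 := (q_le h ((K_pos h).trans hz)).trans (EE_small h.hD hz)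
      have h5 : 0 ≤ ν - q z := by linarith
      nlinarith [mul_self_nonneg (U' z), mul_nonneg h5 (mul_self_nonneg (U z))]) hx hy
    linarith

theorem sq_le (h : BSol D q ν U U') (hν : 1 ≤ ν) {x y : ℝ} (hx : Real.sqrt D + 3 ≤ x)
    (hxy : x ≤ y) : U y ^ 2 ≤ U x ^ 2 := by
  have hF : ∀ x, HasDerivAt (fun x => U x ^ 2) (2 * (U x * U' x)) x := by
    intro x
    have h1 := (h.d1 x).pow 2
    have h2 : (2 : ℕ) * U x ^ (2 - 1) * U' x = 2 * (U x * U' x) := by
      push_cast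
      ring
    rw [h2] at h1
    exact h1
  exact anti_of hF (K := Real.sqrt D + 3) (fun z hz => by
    have := sq_anti h hν hz
    linarith) hx hxy

theorem tends1 (h : BSol D q ν U U') (hν : 1 ≤ ν) : Tendsto U atTop (𝓝 0) := by
  rw [Metric.tendsto_atTop]
  intro ε hε
  obtain ⟨x, hx, hx2⟩ : ∃ x, Real.sqrt D + 3 ≤ x ∧ U x ^ 2 < ε ^ 2 := by
    by_contra hcon
    push Not at hcon
    have hG : ∀ x, HasDerivAt (fun x => U x * U' x - (7 / 8 * ε ^ 2) * x)
        (U' x * U' x + U x * ((ν - q x) * U x) - 7 / 8 * ε ^ 2) x := by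
      intro x
      have h1 : HasDerivAt (fun x => U x * U' x - (7 / 8 * ε ^ 2) * x)
          (U' x * U' x + U x * ((ν - q x) * U x) - 7 / 8 * ε ^ 2 * 1) x :=
        ((h.d1 x).mul (h.d2 x)).sub ((hasDerivAt_id x).const_mul (7 / 8 * ε ^ 2))
      rwa [mul_one] at h1
    have h2 : ∀ z, Real.sqrt D + 3 ≤ z →
        0 ≤ U' z * U' z + U z * ((ν - q z) * U z) - 7 / 8 * ε ^ 2 := by
      intro z hz
      have h4 := (q_le h ((K_pos h).trans hz)).trans (EE_small h.hD hz)
      have h5 := hcon z hz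
      have h6 : 7 / 8 * U z ^ 2 ≤ U z * ((ν - q z) * U z) := by
        have h7 : U z * ((ν - q z) * U z) = (ν - q z) * U z ^ 2 := by ring
        rw [h7]
        exact mul_le_mul_of_nonneg_right (by linarith) (sq_nonneg _)
      nlinarith [mul_self_nonneg (U' z)]
    obtain ⟨A, hA⟩ : ∃ A, A = |U (Real.sqrt D + 3) * U' (Real.sqrt D + 3)| + 1 := ⟨_, rfl⟩
    have hA0 : 0 < A := by
      rw [hA]
      positivity
    have hle : Real.sqrt D + 3 ≤ Real.sqrt D + 3 + A / (7 / 8 * ε ^ 2) := by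
      have : 0 ≤ A / (7 / 8 * ε ^ 2) := by positivity
      linarith
    have h8 := mono_of hG h2 le_rfl hle
    have h9 := sq_anti h hν hle
    have h10 : 7 / 8 * ε ^ 2 * (Real.sqrt D + 3 + A / (7 / 8 * ε ^ 2)) =
        7 / 8 * ε ^ 2 * (Real.sqrt D + 3) + A := by
      field_simp
    rw [h10] at h8
    have h11 := neg_abs_le (U (Real.sqrt D + 3) * U' (Real.sqrt D + 3))
    linarith
  refine ⟨x, fun y hy => ?_⟩
  have h1 := (sq_le h hν hx hy).trans_lt hx2
  rw [Real.dist_eq, sub_zero]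
  exact abs_lt_of_sq_lt_sq h1 hε.le

theorem ne1 (h : BSol D q ν U U') (hν : 1 ≤ ν) (hU : ∃ x, U x ≠ 0) {x : ℝ}
    (hx : Real.sqrt D + 3 ≤ x) : U x ≠ 0 := by
  intro h0
  obtain ⟨z, hz⟩ := hU
  apply hz
  refine vanish h (x1 := x) (fun y hy => ?_) z
  have h1 := sq_le h hν hx hy
  rw [h0] at h1
  have h2 : U y ^ 2 = 0 := le_antisymm (by simpa using h1) (sq_nonneg _)
  exact pow_eq_zero_iff (two_ne_zero) |>.1 h2

/-! ### The case `ν = 0` -/

theorem d0_bd (h : BSol D q 0 U U') {m x0 : ℝ} (hx0 : 0 ≤ x0) (hm : ∀ x, x0 ≤ x → |U x| ≤ m)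
    {x : ℝ} (hx : x0 ≤ x) : |U' x| ≤ m / 2 * EE D x := by
  obtain ⟨B, hB⟩ := h.bdd
  have hm0 : 0 ≤ m := (abs_nonneg _).trans (hm x0 le_rfl)
  have hqU : ∀ z, x0 ≤ z → |(0 - q z) * U z| ≤ m * EE D z := by
    intro z hz
    rw [abs_mul, zero_sub, abs_neg, abs_of_nonneg (h.q0 z), mul_comm m]
    exact mul_le_mul (q_le h (hx0.trans hz)) (hm z hz) (abs_nonneg _) (EE_nonneg h.hD z)
  have d1 : ∀ z, HasDerivAt (fun z => U' z - m / 2 * EE D z)
      ((0 - q z) * U z - m / 2 * (-2 * EE D z)) z :=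
    fun z => (h.d2 z).sub ((EE_deriv D z).const_mul _)
  have d2 : ∀ z, HasDerivAt (fun z => U' z + m / 2 * EE D z)
      ((0 - q z) * U z + m / 2 * (-2 * EE D z)) z :=
    fun z => (h.d2 z).add ((EE_deriv D z).const_mul _)
  rw [abs_le]
  constructor
  · by_contra hcon
    push Not at hcon
    refine no_grow (f := fun x => -U x) (f' := fun x => -U' x) (fun x => (h.d1 x).neg) (B := B)
      (x1 := x) (δ := -(U' x + m / 2 * EE D x)) (fun y => by rw [abs_neg]; exact hB y)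
      (by linarith) ?_
    intro y hy
    have h1 := anti_of d2 (K := x0) (fun z hz => by
      have := (abs_le.1 (hqU z hz)).2
      linarith) hx hy
    have h2 : 0 ≤ m / 2 * EE D y := mul_nonneg (by linarith) (EE_nonneg h.hD y)
    linarith
  · by_contra hcon
    push Not at hcon
    refine no_grow h.d1 (B := B) (x1 := x) (δ := U' x - m / 2 * EE D x) hB (by linarith) ?_
    intro y hy
    have h1 := mono_of d1 (K := x0) (fun z hz => by
      have := (abs_le.1 (hqU z hz)).1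
      linarith) hx hy
    have h2 : 0 ≤ m / 2 * EE D y := mul_nonneg (by linarith) (EE_nonneg h.hD y)
    linarith

theorem diff_bd (h : BSol D q 0 U U') {m x0 : ℝ} (hx0 : 0 ≤ x0) (hm : ∀ x, x0 ≤ x → |U x| ≤ m)
    {x y : ℝ} (hx : x0 ≤ x) (hxy : x ≤ y) :
    U y + m / 4 * EE D y ≤ U x + m / 4 * EE D x ∧ |U y - U x| ≤ m / 4 * EE D x := by
  have hm0 : 0 ≤ m := (abs_nonneg _).trans (hm x0 le_rfl)
  have d1 : ∀ z, HasDerivAt (fun z => U z + m / 4 * EE D z)
      (U' z + m / 4 * (-2 * EE D z)) z :=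
    fun z => (h.d1 z).add ((EE_deriv D z).const_mul _)
  have d2 : ∀ z, HasDerivAt (fun z => U z - m / 4 * EE D z)
      (U' z - m / 4 * (-2 * EE D z)) z :=
    fun z => (h.d1 z).sub ((EE_deriv D z).const_mul _)
  have h1 := anti_of d1 (K := x0) (fun z hz => by
    have := (abs_le.1 (d0_bd h hx0 hm hz)).2
    linarith) hx hxy
  have h2 := mono_of d2 (K := x0) (fun z hz => by
    have := (abs_le.1 (d0_bd h hx0 hm hz)).1
    linarith) hx hxy
  have h3 : 0 ≤ m / 4 * EE D y := mul_nonneg (by linarith) (EE_nonneg h.hD y)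
  refine ⟨h1, ?_⟩
  rw [abs_le]
  constructor <;> linarith

theorem lim0 (h : BSol D q 0 U U') : ∃ c, Tendsto U atTop (𝓝 c) := by
  obtain ⟨B, hB⟩ := h.bdd
  have hB0 : 0 ≤ B := (abs_nonneg _).trans (hB 0)
  obtain ⟨c, hc⟩ := lim_of_anti (f := fun x => U x + B / 4 * EE D x) (K := 0) (b := -B)
    (fun x y hx hxy => (diff_bd h le_rfl (fun x _ => hB x) hx hxy).1)
    (fun x hx => by
      have h1 := (abs_le.1 (hB x)).1
      have h2 : 0 ≤ B / 4 * EE D x := mul_nonneg (by linarith) (EE_nonneg h.hD x)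
      linarith)
  refine ⟨c, ?_⟩
  have h3 := hc.sub ((EE_lim D).const_mul (B / 4))
  rw [mul_zero, sub_zero] at h3
  refine h3.congr fun x => ?_
  ring

/-- if the values are small compared with the bound, the solution vanishes -/
theorem iter0 (h : BSol D q 0 U U') {x1 : ℝ}
    (hs : ∀ m : ℝ, (∀ x, x1 ≤ x → |U x| ≤ m) → ∀ x, x1 ≤ x → |U x| ≤ m / 32) :
    ∀ y, x1 ≤ y → U y = 0 := by
  obtain ⟨B, hB⟩ := h.bdd
  have h1 : ∀ k : ℕ, ∀ x, x1 ≤ x → |U x| ≤ B * (1 / 32) ^ k := by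
    intro k
    induction k with
    | zero => intro x _; simpa using hB x
    | succ k ih =>
      intro x hx
      have := hs _ ih x hx
      rw [pow_succ]
      linarith
  intro y hy
  have h2 : Tendsto (fun k : ℕ => B * (1 / 32 : ℝ) ^ k) atTop (𝓝 (B * 0)) :=
    (tendsto_pow_atTop_nhds_zero_of_lt_one (by norm_num) (by norm_num)).const_mul B
  rw [mul_zero] at h2
  have h3 := ge_of_tendsto' h2 fun k => h1 k y hy
  exact abs_nonpos_iff.1 h3

theorem ne0 (h : BSol D q 0 U U') (hU : ∃ x, U x ≠ 0) {x : ℝ}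
    (hx : Real.sqrt D + 3 ≤ x) : U x ≠ 0 := by
  intro h0
  obtain ⟨z, hz⟩ := hU
  apply hz
  refine vanish h (x1 := x) (iter0 h fun m hm y hy => ?_) z
  have hm0 : 0 ≤ m := (abs_nonneg _).trans (hm x le_rfl)
  have h1 := (diff_bd h ((K_pos h).trans hx) hm le_rfl hy).2
  rw [h0, sub_zero] at h1
  have h2 := EE_small h.hD hx
  have h3 := mul_le_mul_of_nonneg_left h2 (show 0 ≤ m / 4 by linarith)
  linarith

theorem lim_ne0 (h : BSol D q 0 U U') (hU : ∃ x, U x ≠ 0) {c : ℝ}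
    (hc : Tendsto U atTop (𝓝 c)) : c ≠ 0 := by
  intro h0
  rw [h0] at hc
  obtain ⟨z, hz⟩ := hU
  apply hz
  refine vanish h (x1 := Real.sqrt D + 3) (iter0 h fun m hm x hx => ?_) z
  have hm0 : 0 ≤ m := (abs_nonneg _).trans (hm _ le_rfl)
  have h1 : Tendsto (fun y => |U y - U x|) atTop (𝓝 |0 - U x|) :=
    (hc.sub_const (U x)).abs
  have h2 : |0 - U x| ≤ m / 4 * EE D x := by
    refine le_of_tendsto h1 ?_
    filter_upwards [eventually_ge_atTop x] with y hy
    exact (diff_bd h (K_pos h) hm hx hy).2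
  rw [zero_sub, abs_neg] at h2
  have h3 := mul_le_mul_of_nonneg_left (EE_small h.hD hx) (show 0 ≤ m / 4 by linarith)
  linarith

/-! ### One-sided statements -/

theorem limT (h : BSol D q ν U U') : (∃ c, Tendsto U atTop (𝓝 c)) ∧
    Tendsto (fun x => (ν - q x) * U x) atTop (𝓝 0) := by
  rcases h.hν with h1 | h1
  · subst h1
    refine ⟨lim0 h, ?_⟩
    obtain ⟨B, hB⟩ := h.bdd
    have h2 := (EE_lim D).mul_const B
    rw [zero_mul] at h2
    refine squeeze_zero_norm' ?_ h2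
    filter_upwards [eventually_ge_atTop (0 : ℝ)] with x hx
    rw [Real.norm_eq_abs, abs_mul, zero_sub, abs_neg, abs_of_nonneg (h.q0 x)]
    exact mul_le_mul (q_le h hx) (hB x) (abs_nonneg _) (EE_nonneg h.hD x)
  · have h2 := tends1 h h1
    refine ⟨⟨0, h2⟩, ?_⟩
    have h3 := h2.abs.const_mul (ν + D)
    rw [abs_zero, mul_zero] at h3
    refine squeeze_zero_norm (fun x => ?_) h3
    rw [Real.norm_eq_abs, abs_mul]
    exact mul_le_mul_of_nonneg_right (g_bd h x) (abs_nonneg _)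

theorem neT (h : BSol D q ν U U') (hU : ∃ x, U x ≠ 0) {x : ℝ}
    (hx : Real.sqrt D + 3 ≤ x) : U x ≠ 0 := by
  rcases h.hν with h1 | h1
  · subst h1
    exact ne0 h hU hx
  · exact ne1 h h1 hU hx

theorem contU (h : BSol D q ν U U') : Continuous U :=
  continuous_iff_continuousAt.2 fun x => (h.d1 x).continuousAt

theorem d_bdd (h : BSol D q ν U U') : ∃ C, ∀ x, |U' x| ≤ C := by
  obtain ⟨B, hB⟩ := h.bdd
  have hB0 : 0 ≤ B := (abs_nonneg _).trans (hB 0)
  have hQ : 0 ≤ ν + D := add_nonneg (nu_nonneg h) h.hD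
  refine ⟨2 * B + (ν + D) * B, fun x => ?_⟩
  have hlt : x < x + 1 := by linarith
  obtain ⟨ξ, hξ, hξ2⟩ := exists_hasDerivAt_eq_slope U U' hlt (contU h).continuousOn
    (fun y _ => h.d1 y)
  have h1 : |U' ξ| ≤ 2 * B := by
    rw [hξ2, add_sub_cancel_left, div_one, abs_le]
    have a1 := abs_le.1 (hB x)
    have a2 := abs_le.1 (hB (x + 1))
    constructor <;> linarith [a1.1, a1.2, a2.1, a2.2]
  have h2 : |U' x - U' ξ| ≤ (ν + D) * B := by
    have h3 := (convex_Icc x (x + 1)).norm_image_sub_le_of_norm_hasDerivWithin_le (f := U')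
      (f' := fun y => (ν - q y) * U y) (C := (ν + D) * B) (fun y _ => (h.d2 y).hasDerivWithinAt)
      (fun y _ => by
        rw [norm_mul, Real.norm_eq_abs, Real.norm_eq_abs]
        exact mul_le_mul (g_bd h y) (hB y) (abs_nonneg _) hQ)
      (x := ξ) (y := x) ⟨hξ.1.le, hξ.2.le⟩ ⟨le_rfl, hlt.le⟩
    rw [Real.norm_eq_abs, Real.norm_eq_abs] at h3
    refine h3.trans ?_
    have h4 : |x - ξ| ≤ 1 := by
      rw [abs_le]
      constructor <;> linarith [hξ.1, hξ.2]
    have := mul_le_mul_of_nonneg_left h4 (mul_nonneg hQ hB0)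
    linarith
  have h5 : |U' x| ≤ |U' x - U' ξ| + |U' ξ| := by
    have := abs_add_le (U' x - U' ξ) (U' ξ)
    rwa [sub_add_cancel] at this
  linarith

end sol

theorem BSol_neg {D : ℝ} {q : ℝ → ℝ} {ν : ℝ} {U U' : ℝ → ℝ} (h : BSol D q ν U U') :
    BSol D q ν (fun x => -U x) (fun x => -U' x) where
  hD := h.hD
  qc := h.qc
  q0 := h.q0
  qD := h.qD
  hν := h.hν
  d1 x := (h.d1 x).neg
  d2 x := by
    have h1 := (h.d2 x).neg
    have h2 : (ν - q x) * -U x = -((ν - q x) * U x) := by ring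
    rw [h2]
    exact h1
  bdd := by
    obtain ⟨B, hB⟩ := h.bdd
    exact ⟨B, fun x => by rw [abs_neg]; exact hB x⟩

theorem BSol_refl {D : ℝ} {q : ℝ → ℝ} {ν : ℝ} {U U' : ℝ → ℝ} (h : BSol D q ν U U') :
    BSol D (fun x => q (-x)) ν (fun x => U (-x)) (fun x => -U' (-x)) where
  hD := h.hD
  qc := h.qc.comp continuous_neg
  q0 x := h.q0 (-x)
  qD x := by
    have h1 := h.qD (-x)
    rwa [abs_neg] at h1
  hν := h.hν
  d1 x := by
    have h1 := (h.d1 (-x)).comp x (hasDerivAt_neg x)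
    have h2 : U' (-x) * -1 = -U' (-x) := by ring
    rw [h2] at h1
    exact h1
  d2 x := by
    have h1 := ((h.d2 (-x)).comp x (hasDerivAt_neg x)).neg
    have h2 : -((ν - q (-x)) * U (-x) * -1) = (ν - q (-x)) * U (-x) := by ring
    rw [h2] at h1
    exact h1
  bdd := by
    obtain ⟨B, hB⟩ := h.bdd
    exact ⟨B, fun x => hB (-x)⟩

/-- domination in the case of a positive product -/
theorem domP {D : ℝ} {q : ℝ → ℝ} {ν ν' : ℝ} {U U' V V' : ℝ → ℝ} (h : BSol D q ν U U')
    (h' : BSol D q ν' V V') (h1 : 1 ≤ ν) (hlt : ν < ν')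
    (hpos : ∀ x, Real.sqrt D + 3 ≤ x → 0 < U x * V x) :
    ∃ R, ∀ x, Real.sqrt D + 3 ≤ x → |V x| ≤ R * |U x| := by
  have hU0 : ∀ x, Real.sqrt D + 3 ≤ x → U x ≠ 0 := fun x hx => left_ne_zero_of_mul (hpos x hx).ne'
  have hW : ∀ x, HasDerivAt (fun x => V' x * U x - V x * U' x) ((ν' - ν) * (U x * V x)) x := by
    intro x
    have a1 := ((h'.d2 x).mul (h.d1 x)).sub ((h'.d1 x).mul (h.d2 x))
    have a2 : (ν' - q x) * V x * U x + V' x * U' x - (V' x * U' x + V x * ((ν - q x) * U x)) =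
        (ν' - ν) * (U x * V x) := by ring
    rw [a2] at a1
    exact a1
  have hU := tends1 h h1
  have hV := tends1 h' (h1.trans hlt.le)
  obtain ⟨C, hC⟩ := d_bdd h
  obtain ⟨C', hC'⟩ := d_bdd h'
  have hWlim : Tendsto (fun x => V' x * U x - V x * U' x) atTop (𝓝 0) := by
    have b1 : Tendsto (fun x => V' x * U x) atTop (𝓝 0) := by
      have b2 := hU.abs.const_mul C'
      rw [abs_zero, mul_zero] at b2
      refine squeeze_zero_norm (fun x => ?_) b2
      rw [Real.norm_eq_abs, abs_mul]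
      exact mul_le_mul_of_nonneg_right (hC' x) (abs_nonneg _)
    have b3 : Tendsto (fun x => V x * U' x) atTop (𝓝 0) := by
      have b2 := hV.abs.const_mul C
      rw [abs_zero, mul_zero] at b2
      refine squeeze_zero_norm (fun x => ?_) b2
      rw [Real.norm_eq_abs, abs_mul, mul_comm]
      exact mul_le_mul_of_nonneg_right (hC x) (abs_nonneg _)
    have b4 := b1.sub b3
    rwa [sub_zero] at b4
  have hWle : ∀ x, Real.sqrt D + 3 ≤ x → V' x * U x - V x * U' x ≤ 0 := by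
    intro x hx
    refine ge_of_tendsto hWlim ?_
    filter_upwards [eventually_ge_atTop x] with y hy
    exact mono_of hW (K := Real.sqrt D + 3)
      (fun z hz => mul_nonneg (by linarith) (hpos z hz).le) hx hy
  refine ⟨V (Real.sqrt D + 3) / U (Real.sqrt D + 3), fun x hx => ?_⟩
  -- the quotient is antitone on the half-line
  have hq : AntitoneOn (fun x => V x / U x) (Ici (Real.sqrt D + 3)) := by
    have e : ∀ x, Real.sqrt D + 3 ≤ x → HasDerivAt (fun x => V x / U x)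
        ((V' x * U x - V x * U' x) / U x ^ 2) x := fun x hx => (h'.d1 x).div (h.d1 x) (hU0 x hx)
    apply antitoneOn_of_deriv_nonpos (convex_Ici _)
    · exact fun x hx => (e x hx).continuousAt.continuousWithinAt
    · intro x hx
      rw [interior_Ici] at hx
      exact (e x (le_of_lt hx)).differentiableAt.differentiableWithinAt
    · intro x hx
      rw [interior_Ici] at hx
      rw [(e x (le_of_lt hx)).deriv]
      exact div_nonpos_of_nonpos_of_nonneg (hWle x (le_of_lt hx)) (sq_nonneg _)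
  have h2 : V x / U x ≤ V (Real.sqrt D + 3) / U (Real.sqrt D + 3) :=
    hq (mem_Ici.2 le_rfl) (mem_Ici.2 hx) hx
  have h3 : |V x / U x| = V x / U x := by
    apply abs_of_pos
    have h4 : V x / U x = U x * V x / U x ^ 2 := by
      have := hU0 x hx
      field_simp
    rw [h4]
    exact div_pos (hpos x hx) (by
      have := hU0 x hx
      positivity)
  have h5 : |V x| = |V x / U x| * |U x| := by
    rw [← abs_mul, div_mul_cancel₀ _ (hU0 x hx)]
  rw [h5, h3]
  exact mul_le_mul_of_nonneg_right h2 (abs_nonneg _)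

theorem domT {D : ℝ} {q : ℝ → ℝ} {ν ν' : ℝ} {U U' V V' : ℝ → ℝ} (h : BSol D q ν U U')
    (h' : BSol D q ν' V V') (hU : ∃ x, U x ≠ 0) (hlt : ν < ν') :
    ∃ R, 0 ≤ R ∧ ∀ x, Real.sqrt D + 3 ≤ x → |V x| ≤ R * |U x| := by
  suffices hs : ∃ R, ∀ x, Real.sqrt D + 3 ≤ x → |V x| ≤ R * |U x| by
    obtain ⟨R, hR⟩ := hs
    exact ⟨max R 0, le_max_right _ _, fun x hx =>
      (hR x hx).trans (mul_le_mul_of_nonneg_right (le_max_left _ _) (abs_nonneg _))⟩
  rcases h.hν with h1 | h1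
  · subst h1
    obtain ⟨c, hc⟩ := lim0 h
    have hc0 := lim_ne0 h hU hc
    obtain ⟨B, hB⟩ := h'.bdd
    have hB0 : 0 ≤ B := (abs_nonneg _).trans (hB 0)
    have h2 : ∀ᶠ x in atTop, |c| / 2 < |U x| := by
      have h3 := hc.abs
      exact h3.eventually_const_lt (by
        have := abs_pos.2 hc0
        linarith)
    obtain ⟨X, hX⟩ := eventually_atTop.1 h2
    obtain ⟨xm, hxm, hmin⟩ := (isCompact_Icc (a := Real.sqrt D + 3)
      (b := max (Real.sqrt D + 3) X)).exists_isMinOn ⟨_, le_rfl, le_max_left _ _⟩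
      (contU h).abs.continuousOn
    have hm0 : 0 < |U xm| := abs_pos.2 (neT h hU hxm.1)
    have hc1 : 0 < |c| / 2 := by
      have := abs_pos.2 hc0
      linarith
    have hδ : ∀ x, Real.sqrt D + 3 ≤ x → min |U xm| (|c| / 2) ≤ |U x| := by
      intro x hx
      rcases le_total x (max (Real.sqrt D + 3) X) with h3 | h3
      · exact (min_le_left _ _).trans (hmin ⟨hx, h3⟩)
      · exact (min_le_right _ _).trans (hX x ((le_max_right _ _).trans h3)).le
    have hmp : 0 < min |U xm| (|c| / 2) := lt_min hm0 hc1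
    refine ⟨B / min |U xm| (|c| / 2), fun x hx => (hB x).trans ?_⟩
    rw [div_mul_eq_mul_div, le_div_iff₀ hmp]
    exact mul_le_mul_of_nonneg_left (hδ x hx) hB0
  · by_cases hV : ∃ x, V x ≠ 0
    · have hne : ∀ x, Real.sqrt D + 3 ≤ x → U x * V x ≠ 0 := fun x hx =>
        mul_ne_zero (neT h hU hx) (neT h' hV hx)
      rcases const_sign ((contU h).mul (contU h')) hne with h2 | h2
      · exact domP h h' h1 hlt h2
      · obtain ⟨R, hR⟩ := domP h (BSol_neg h') h1 hlt (fun x hx => by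
          have := h2 x hx
          have h3 : U x * -V x = -(U x * V x) := by ring
          rw [h3]
          simp only [Pi.mul_apply] at this
          linarith)
        refine ⟨R, fun x hx => ?_⟩
        have := hR x hx
        rwa [abs_neg] at this
    · push Not at hV
      exact ⟨0, fun x _ => by rw [hV x]; simp⟩

/-! ### The statements -/

theorem LA1 : S_LA1 := by
  intro D q ν U U' h
  obtain ⟨h1, h2⟩ := limT h
  obtain ⟨⟨c, h3⟩, h4⟩ := limT (BSol_refl h)
  refine ⟨h1, ⟨c, ?_⟩, h2, ?_⟩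
  · have h5 := h3.comp tendsto_neg_atBot_atTop
    refine h5.congr fun x => ?_
    simp
  · have h5 := h4.comp tendsto_neg_atBot_atTop
    refine h5.congr fun x => ?_
    simp

theorem LA2 : S_LA2 := by
  intro D q ν U U' h hU x hx
  rcases le_total 0 x with h0 | h0
  · rw [abs_of_nonneg h0] at hx
    exact neT h hU hx
  · rw [abs_of_nonpos h0] at hx
    obtain ⟨z, hz⟩ := hU
    have h1 := neT (BSol_refl h) ⟨-z, by simpa using hz⟩ hx
    simpa using h1

theorem LA3 : S_LA3 := by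
  intro D q ν ν' U U' V V' h h' hU hlt
  obtain ⟨R1, h1, hR1⟩ := domT h h' hU hlt
  obtain ⟨z, hz⟩ := hU
  obtain ⟨R2, h2, hR2⟩ := domT (BSol_refl h) (BSol_refl h') ⟨-z, by simpa using hz⟩ hlt
  refine ⟨max R1 R2, fun x hx => ?_⟩
  rcases le_total 0 x with h0 | h0
  · rw [abs_of_nonneg h0] at hx
    exact (hR1 x hx).trans (mul_le_mul_of_nonneg_right (le_max_left _ _) (abs_nonneg _))
  · rw [abs_of_nonpos h0] at hx
    have h3 := hR2 (-x) hx
    rw [neg_neg] at h3
    exact h3.trans (mul_le_mul_of_nonneg_right (le_max_right _ _) (abs_nonneg _))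

end Pool.Agent.N9.SR
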